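import Pool.Agent.Helper46.TTT.Spec
import Pool.Graph.R_seed8.Helper635.LLL

/-!
# MP_0f0afc_co, part COL1: a colouring from the local lemma
-/

set_option autoImplicit false

namespace Pool.Agent.Helper47.TTT.COL1

open Finset Pool.Agent.Helper46.TTT Pool.Agent.Helper635.LLL

theorem qq_lt (n : ℕ) {j j' : ℕ} (h : j < j') : qq n j < qq n j' := by
  unfold qq
  exact Nat.pow_lt_pow_left (by omega) (by norm_num)

theorem qq_le (n : ℕ) {j j' : ℕ} (h : j ≤ j') : qq n j ≤ qq n j' := by
  unfold qq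
  exact Nat.pow_le_pow_left (by omega) 2

theorem cnt_const {M : ℕ} (S : Finset (Fin (M + 1))) (c : Bool) :
    (univ.filter fun ω : Fin (M + 1) → Bool => ∀ t ∈ S, ω t = c).card * 2 ^ S.card = 2 ^ (M + 1) := by
  classical
  have e : (univ.filter fun ω : Fin (M + 1) → Bool => ∀ t ∈ S, ω t = c)
      = Fintype.piFinset (fun t => if t ∈ S then {c} else univ) := by
    ext ω
    simp only [mem_filter, mem_univ, true_and, Fintype.mem_piFinset]
    constructor
    · intro h t
      split_ifs with ht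
      · rw [mem_singleton]; exact h t ht
      · exact mem_univ _
    · intro h t ht
      have := h t
      rwa [if_pos ht, mem_singleton] at this
  rw [e, Fintype.card_piFinset]
  have e2 : ∀ t : Fin (M + 1), (if t ∈ S then ({c} : Finset Bool) else univ).card
      = if t ∈ S then 1 else 2 := by
    intro t; split_ifs <;> simp
  simp only [e2]
  rw [Finset.prod_ite]
  simp only [prod_const, one_pow, one_mul]
  rw [← pow_add]
  congr 1
  have h1 : (univ.filter fun t : Fin (M + 1) => t ∉ S).card + S.card = Fintype.card (Fin (M + 1)) := by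
    have h2 := Finset.card_filter_add_card_filter_not (s := (univ : Finset (Fin (M + 1))))
      (fun t => t ∈ S)
    have h3 : (univ.filter fun t : Fin (M + 1) => t ∈ S) = S := by ext t; simp
    rw [h3, card_univ] at h2
    omega
  rw [h1, Fintype.card_fin]

theorem card_any {M : ℕ} (inst : Fintype (Fin (M + 1) → Bool)) :
    @Fintype.card (Fin (M + 1) → Bool) inst = 2 ^ (M + 1) := by
  have h : @Fintype.card (Fin (M + 1) → Bool) inst = Nat.card (Fin (M + 1) → Bool) :=
    (@Nat.card_eq_fintype_card _ inst).symm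
  rw [h, Nat.card_fun]
  simp

theorem main : S_COL1 := by
  intro n k D M hk hD h8
  classical
  -- the points
  set pt : ℕ × ℕ → ℕ → Fin (M + 1) := fun i j => Fin.ofNat (M + 1) (i.1 + i.2 * qq n j) with hpt
  set I : Finset (ℕ × ℕ) := ((range (M + 1)) ×ˢ (Icc 1 D)).filter
    (fun i => i.1 + i.2 * qq n (k - 1) ≤ M) with hI
  set S : ℕ × ℕ → Finset (Fin (M + 1)) := fun i => (range k).image (pt i) with hS
  set B : ℕ × ℕ → (Fin (M + 1) → Bool) → Prop := fun i ω => ∀ j, j < k → ω (pt i j) = ω (pt i 0)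
    with hBd
  have hmem : ∀ i ∈ I, 1 ≤ i.2 ∧ i.2 ≤ D ∧ i.1 + i.2 * qq n (k - 1) ≤ M := by
    intro i hi
    rw [hI, mem_filter, mem_product, mem_Icc] at hi
    exact ⟨hi.1.2.1, hi.1.2.2, hi.2⟩
  have hval : ∀ i ∈ I, ∀ j, j < k → ((pt i j : Fin (M + 1)) : ℕ) = i.1 + i.2 * qq n j := by
    intro i hi j hj
    obtain ⟨h1, h2, h3⟩ := hmem i hi
    have h4 : i.2 * qq n j ≤ i.2 * qq n (k - 1) := Nat.mul_le_mul_left _ (qq_le n (by omega))
    rw [hpt]
    simp only [Fin.ofNat]
    exact Nat.mod_eq_of_lt (by omega)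
  have hcardS : ∀ i ∈ I, (S i).card = k := by
    intro i hi
    rw [hS]
    simp only
    rw [card_image_of_injOn, card_range]
    intro j hj j' hj' he
    rw [coe_range, Set.mem_Iio] at hj hj'
    have e1 := hval i hi j hj
    have e2 := hval i hi j' hj'
    have e3 : i.1 + i.2 * qq n j = i.1 + i.2 * qq n j' := by
      rw [← e1, ← e2]; exact congrArg _ he
    have h1 := (hmem i hi).1
    have e4 : qq n j = qq n j' := Nat.eq_of_mul_eq_mul_left (by omega) (by omega : i.2 * qq n j = i.2 * qq n j')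
    rcases lt_trichotomy j j' with h | h | h
    · exact absurd e4 (qq_lt n h).ne
    · exact h
    · exact absurd e4 (qq_lt n h).ne'
  have hdep : ∀ i ∈ I, Pool.Agent.Helper635.LLL.DependsOn (B i) (S i) := by
    intro i _ ω ω' hω hb j hj
    have e1 := hω (pt i j) (mem_image_of_mem _ (mem_range.2 hj))
    have e2 := hω (pt i 0) (mem_image_of_mem _ (mem_range.2 (by omega)))
    rw [← e1, ← e2]
    exact hb j hj
  have hcard : ∀ inst : Fintype (Fin (M + 1) → Bool),
      ((@Fintype.card (Fin (M + 1) → Bool) inst : ℕ) : ℝ) = 2 ^ (M + 1) := by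
    intro inst
    rw [card_any inst]; push_cast; ring
  have hcnt : ∀ i ∈ I, (cnt (B i) : ℝ) ≤ (2 * (1 / 2 : ℝ) ^ k) * 2 ^ (M + 1) := by
    intro i hi
    have h1 : cnt (B i) ≤ (univ.filter fun ω : Fin (M + 1) → Bool => ∀ t ∈ S i, ω t = true).card
        + (univ.filter fun ω : Fin (M + 1) → Bool => ∀ t ∈ S i, ω t = false).card := by
      refine (card_le_card ?_).trans (card_union_le _ _)
      intro ω hω
      rw [mem_ev] at hω
      rw [mem_union, mem_filter, mem_filter]
      have h2 : ∀ t ∈ S i, ω t = ω (pt i 0) := by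
        intro t ht
        obtain ⟨j, hj, rfl⟩ := mem_image.1 ht
        exact hω j (mem_range.1 hj)
      cases h3 : ω (pt i 0) with
      | true => left; exact ⟨mem_univ _, fun t ht => by rw [h2 t ht, h3]⟩
      | false => right; exact ⟨mem_univ _, fun t ht => by rw [h2 t ht, h3]⟩
    have h2 := cnt_const (S i) true
    have h3 := cnt_const (S i) false
    rw [hcardS i hi] at h2 h3
    have h4 : cnt (B i) * 2 ^ k ≤ 2 * 2 ^ (M + 1) := by
      calc cnt (B i) * 2 ^ k ≤ _ := Nat.mul_le_mul_right _ h1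
        _ = 2 * 2 ^ (M + 1) := by rw [add_mul, h2, h3]; ring
    have h5 : (cnt (B i) : ℝ) * 2 ^ k ≤ 2 * 2 ^ (M + 1) := by exact_mod_cast h4
    have h7 : (0 : ℝ) < 2 ^ k := by positivity
    have h8 : (1 / 2 : ℝ) ^ k = 1 / 2 ^ k := by rw [one_div, one_div, inv_pow]
    rw [h8]
    calc (cnt (B i) : ℝ) = ((cnt (B i) : ℝ) * 2 ^ k) / 2 ^ k := by field_simp
      _ ≤ (2 * 2 ^ (M + 1)) / 2 ^ k := div_le_div_of_nonneg_right h5 h7.le
      _ = 2 * (1 / 2 ^ k) * 2 ^ (M + 1) := by ring
  have hdeg : ∀ i ∈ I, (I.filter (fun j => ¬ Disjoint (S i) (S j))).card ≤ k ^ 2 * D := by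
    intro i hi
    have hsub : I.filter (fun j => ¬ Disjoint (S i) (S j)) ⊆
        ((range k) ×ˢ ((range k) ×ˢ (Icc 1 D))).image
          (fun w => (i.1 + i.2 * qq n w.1 - w.2.2 * qq n w.2.1, w.2.2)) := by
      intro l hl
      rw [mem_filter] at hl
      obtain ⟨hl1, hl2⟩ := hl
      rw [Finset.not_disjoint_iff] at hl2
      obtain ⟨t, ht1, ht2⟩ := hl2
      obtain ⟨j, hj, rfl⟩ := mem_image.1 ht1
      obtain ⟨j', hj', he⟩ := mem_image.1 ht2
      rw [mem_range] at hj hj'
      have e1 := hval i hi j hj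
      have e2 := hval l hl1 j' hj'
      have e3 : i.1 + i.2 * qq n j = l.1 + l.2 * qq n j' := by
        rw [← e1, ← e2]; exact congrArg _ he.symm
      refine mem_image.2 ⟨(j, (j', l.2)), ?_, ?_⟩
      · rw [mem_product, mem_product, mem_range, mem_range, mem_Icc]
        exact ⟨hj, hj', (hmem l hl1).1, (hmem l hl1).2.1⟩
      · refine Prod.ext ?_ rfl
        simp only
        omega
    refine (card_le_card hsub).trans (card_image_le.trans ?_)
    rw [card_product, card_product, card_range, Nat.card_Icc]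
    simp only [Nat.add_sub_cancel]
    exact le_of_eq (by ring)
  have h4 : 4 * (2 * (1 / 2 : ℝ) ^ k) * ((k ^ 2 * D : ℕ) : ℝ) ≤ 1 := by
    have h5 : ((8 * k ^ 2 * D : ℕ) : ℝ) ≤ ((2 ^ k : ℕ) : ℝ) := by exact_mod_cast h8
    push_cast at h5 ⊢
    have h7 : (0 : ℝ) < 2 ^ k := by positivity
    have h9 : (1 / 2 : ℝ) ^ k = 1 / 2 ^ k := by rw [one_div, one_div, inv_pow]
    rw [h9]
    have : 4 * (2 * (1 / (2 : ℝ) ^ k)) * ((k : ℝ) ^ 2 * D) = (8 * (k : ℝ) ^ 2 * D) / 2 ^ k := by ring
    rw [this, div_le_one h7]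
    exact h5
  have hpos : ∀ inst : Fintype (Fin (M + 1) → Bool),
      0 < @Fintype.card (Fin (M + 1) → Bool) inst := by
    intro inst
    exact (@Fintype.card_pos_iff _ inst).2 ⟨fun _ => true⟩
  obtain ⟨ω, hω⟩ := lll I B S hdep (2 * (1 / 2 : ℝ) ^ k) (k ^ 2 * D) (by positivity)
    (fun i hi => by rw [hcard]; exact hcnt i hi) (fun i hi => by convert hdeg i hi) h4
    (Nat.mul_pos (pow_pos hk 2) hD) (hpos _)
  refine ⟨fun t => ω (Fin.ofNat (M + 1) t), ?_⟩
  intro C m h1 h2 h3
  have hi : (C, m) ∈ I := by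
    rw [hI, mem_filter, mem_product, mem_range, mem_Icc]
    refine ⟨⟨?_, h1, h2⟩, h3⟩
    simp only
    omega
  have h5 := hω (C, m) hi
  rw [hBd] at h5
  simp only at h5
  push Not at h5
  obtain ⟨j, hj, hne⟩ := h5
  exact ⟨j, 0, hj, hk, hne⟩

end Pool.Agent.Helper47.TTT.COL1
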