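import Pool.Agent.Helper46.TTT.Spec
import Pool.Graph.R_seed8.Helper40.Beck

/-!
# MP_0f0afc_co, part TRA: from the greedy strategy to legal strategies and full plays
-/

set_option autoImplicit false

namespace Pool.Agent.Helper47.TTT.TRA

open Finset Pool.Agent.Helper46.TTT Pool.Agent.Helper40.Beck

theorem psi_append_mem {P K : Type} [DecidableEq P] [Inhabited P] [DecidableEq K] (F : Finset K)
    (A : K → Finset P) (U : Finset P) (h : List P) (x : P) (hx : x ∈ h) :
    Psi F A U (h ++ [x]) = Psi F A U h := by
  unfold Psi
  rw [mk_append_mem hx, bk_append_mem hx, toFinset_append_one,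
    Finset.insert_eq_of_mem (List.mem_toFinset.2 hx)]

theorem main : S_TRA := by
  intro P K _ _ _ F A U n hU hpair hn hbig
  classical
  set σ : List P → P := fun h => if (U \ h.toFinset).Nonempty then greedy F A U h else
    if hx : ∃ p, p ∉ h then hx.choose else default with hσ
  refine ⟨σ, ?_, ?_⟩
  · intro h hnd hex
    by_cases hne : (U \ h.toFinset).Nonempty
    · have e : σ h = greedy F A U h := if_pos hne
      rw [e]
      have := greedy_mem F A U hne
      rw [mem_sdiff, List.mem_toFinset] at this
      exact this.2
    · have e : σ h = hex.choose := by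
        rw [hσ]
        simp only [if_neg hne, dif_pos hex]
      rw [e]
      exact hex.choose_spec
  · intro h hfull hfol
    obtain ⟨hnd, hall⟩ := hfull
    have hlen : ∀ r, (U \ (h.take r).toFinset).Nonempty → r < h.length := by
      intro r hr
      by_contra hc
      rw [List.take_of_length_le (by omega)] at hr
      obtain ⟨y, hy⟩ := hr
      rw [mem_sdiff, List.mem_toFinset] at hy
      exact hy.2 (hall y)
    have step : ∀ r, (U \ (h.take (2 * r)).toFinset).Nonempty →
        Psi F A U (h.take (2 * r)) ≤ Psi F A U (h.take (2 * (r + 1))) := by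
      intro r hne
      have hl := hlen _ hne
      have hx : h[2 * r] = greedy F A U (h.take (2 * r)) := by
        rw [hfol (2 * r) hl (even_two_mul r)]
        exact if_pos hne
      have ht : h.take (2 * r + 1) = h.take (2 * r) ++ [greedy F A U (h.take (2 * r))] := by
        rw [← hx]
        exact (List.take_concat_get' h (2 * r) hl).symm
      have hev : Even (h.take (2 * r)).length := by
        rw [List.length_take, min_eq_left hl.le]
        exact even_two_mul r
      by_cases hl2 : 2 * r + 1 < h.length
      · have ht2 : h.take (2 * (r + 1)) = h.take (2 * r) ++ [greedy F A U (h.take (2 * r))]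
            ++ [h[2 * r + 1]] := by
          rw [← ht]
          exact (List.take_concat_get' h (2 * r + 1) hl2).symm
        rw [ht2]
        exact Psi_round F A U hU hpair _ hev _
      · have ht2 : h.take (2 * (r + 1)) = h.take (2 * r + 1) := by
          rw [List.take_of_length_le (by omega), List.take_of_length_le (by omega)]
        rw [ht2, ht]
        have := Psi_round F A U hU hpair _ hev (greedy F A U (h.take (2 * r)))
        rwa [psi_append_mem F A U _ _ (by simp)] at this
    have hex : ∃ r, ¬ (U \ (h.take (2 * r)).toFinset).Nonempty :=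
      ⟨h.length, fun hne => by have := hlen _ hne; omega⟩
    obtain ⟨r0, hr0, hmin⟩ : ∃ r0, ¬ (U \ (h.take (2 * r0)).toFinset).Nonempty ∧
        ∀ r, r < r0 → (U \ (h.take (2 * r)).toFinset).Nonempty :=
      ⟨Nat.find hex, Nat.find_spec hex, fun r hr => not_not.1 (Nat.find_min hex hr)⟩
    have hmono : ∀ r, r ≤ r0 → Psi F A U [] ≤ Psi F A U (h.take (2 * r)) := by
      intro r
      induction r with
      | zero => intro _; simp
      | succ r ih =>
        intro hr
        exact (ih (by omega)).trans (step r (hmin r (by omega)))
    set L := h.take (2 * r0) with hL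
    have hfullU : U ⊆ L.toFinset := by
      intro z hz
      by_contra hzh
      exact hr0 ⟨z, mem_sdiff.2 ⟨hz, hzh⟩⟩
    have hpot0 : Psi F A U [] = (F.card : ℝ) * (1/2) ^ n := by
      unfold Psi pot
      have hm : mk ([] : List P) = ∅ := by simp [Pool.Agent.Helper40.Beck.mk]
      have hb : bk ([] : List P) = ∅ := by simp [bk]
      rw [hm, hb]
      simp only [Finset.disjoint_empty_right, if_true, Finset.sdiff_empty, List.toFinset_nil,
        Finset.inter_empty, Finset.card_empty, Nat.cast_zero, zero_div, add_zero]
      rw [Finset.sum_congr rfl (fun a ha => by rw [hn a ha])]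
      simp
    have hpos : 0 < pot F A (mk L) (bk L) := by
      have h1 := hmono r0 le_rfl
      rw [hpot0, ← hL] at h1
      unfold Psi at h1
      rw [Finset.inter_eq_left.2 hfullU] at h1
      linarith
    unfold pot at hpos
    obtain ⟨a, haF, ha⟩ := Finset.exists_ne_zero_of_sum_ne_zero hpos.ne'
    refine ⟨a, haF, ?_⟩
    intro x hx
    have hd : Disjoint (A a) (bk L) := by
      by_contra hd
      rw [if_neg hd] at ha
      exact ha rfl
    have hxh : x ∈ L.toFinset := hfullU (hU a haF hx)
    rw [← mk_union_bk, mem_union] at hxh
    rcases hxh with hxh | hxh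
    · obtain ⟨h1, h2⟩ := Pool.Agent.Helper40.Beck.mem_mk.1 hxh
      have e : h = L ++ h.drop (2 * r0) := (List.take_append_drop _ _).symm
      rw [e, List.idxOf_append_of_mem h1]
      exact h2
    · exact absurd hxh (Finset.disjoint_left.1 hd hx)

end Pool.Agent.Helper47.TTT.TRA
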